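import Pool.Agent.MP_db5b97_nt.H85.Spec2

/-! The final reduction. -/

namespace Pool.Agent.MP_db5b97_nt.H61

open H85 MvPolynomial Matrix

theorem galOm : IsGalois ℚ Om :=
  @IsAlgClosure.isGalois ℚ Om _ _ _ (AlgebraicClosure.instIsAlgClosure ℚ) _

section Gen

variable {n : ℕ}

/-- the polynomial map -/
noncomputable def ev (f : Fin n → MvPolynomial (Fin n) Om) (x : Fin n → Om) : Fin n → Om :=
  fun i => eval x (f i)

theorem gal_mulVec (s : Ga) (φ : Matrix (Fin n) (Fin n) Om) (x : Fin n → Om) :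
    s • (φ *ᵥ x) = φ.map s *ᵥ (s • x) := by
  ext i
  simp [mulVec, dotProduct, map_sum]

theorem gal_smul (s : Ga) (a : Om) (x : Fin n → Om) : s • a • x = s a • s • x := by
  ext i
  simp

theorem det_gal (s : Ga) (φ : Matrix (Fin n) (Fin n) Om) : (φ.map s).det = s φ.det :=
  (RingHom.map_det (s : Om →+* Om) φ).symm

theorem gal_eval (s : Ga) (x : Fin n → Om) (p : MvPolynomial (Fin n) Om) :
    eval (s • x) (map (s : Om →+* Om) p) = s (eval x p) :=
  (map_eval (s : Om →+* Om) x p).symm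

theorem ev_smul {d : ℕ} {f : Fin n → MvPolynomial (Fin n) Om} (hf : ∀ i, (f i).IsHomogeneous d)
    (a : Om) (x : Fin n → Om) : ev f (a • x) = a ^ d • ev f x := by
  ext i
  simp only [ev, Pi.smul_apply, smul_eq_mul, eval_eq', Finset.mul_sum]
  refine Finset.sum_congr rfl fun m hm => ?_
  have h : ∑ j, m j = d := by
    rw [(hf i).degree_eq_sum_deg_support hm]
    exact (Finset.sum_subset (Finset.subset_univ _) fun j _ hj => by simpa using hj).symm
  simp only [mul_pow, Finset.prod_mul_distrib, Finset.prod_pow_eq_pow_sum, h]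
  ring

/-- semilinear maps of determinant one that commute with `f` up to a scalar -/
def EE (f : Fin n → MvPolynomial (Fin n) Om) (A : Subgroup Ga) :
    Subgroup (Equiv.Perm (Fin n → Om) × Ga) where
  carrier := {e | e.2 ∈ A ∧ (∃ φ : Matrix (Fin n) (Fin n) Om, φ.det = 1 ∧
    ∀ w, e.1 w = φ *ᵥ (e.2 • w)) ∧ ∃ c : Om, c ≠ 0 ∧ ∀ w, ev f (e.1 w) = c • e.1 (ev f w)}
  one_mem' := ⟨A.one_mem, ⟨1, by simp, by simp⟩, 1, one_ne_zero, by simp⟩
  mul_mem' := by
    rintro ⟨T, s⟩ ⟨T', s'⟩ ⟨hA, ⟨φ, hφ, hT⟩, c, hc, h⟩ ⟨hA', ⟨φ', hφ', hT'⟩, c', hc', h'⟩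
    simp only at hA hA' hT hT' h h'
    refine ⟨A.mul_mem hA hA', ⟨φ * φ'.map s, ?_, fun w => ?_⟩, c * s c', by simp [hc, hc'],
      fun w => ?_⟩
    · rw [det_mul, det_gal, hφ, hφ', map_one, mul_one]
    · show T (T' w) = _ *ᵥ ((s * s') • w)
      rw [hT, hT', gal_mulVec, mulVec_mulVec, mul_smul]
    · show ev f (T (T' w)) = _ • T (T' _)
      rw [h, h', hT, hT, gal_smul, mulVec_smul, mul_smul]
  inv_mem' := by
    rintro ⟨T, s⟩ ⟨hA, ⟨φ, hφ, hT⟩, c, hc, h⟩
    simp only at hA hT h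
    have hu : IsUnit φ.det := hφ ▸ isUnit_one
    refine ⟨A.inv_mem hA, ⟨φ⁻¹.map ⇑(s⁻¹), ?_, fun w => ?_⟩, s⁻¹ c⁻¹, by simp [hc], fun w => ?_⟩
    · rw [det_gal, det_nonsing_inv, hφ]
      simp
    · show T⁻¹ w = _ *ᵥ (s⁻¹ • w)
      rw [Equiv.Perm.inv_eq_iff_eq, hT, ← gal_mulVec, smul_inv_smul, mulVec_mulVec,
        mul_nonsing_inv _ hu, one_mulVec]
    · show ev f (T⁻¹ w) = _ • T⁻¹ _
      apply T.injective
      have hi : ∀ y, T (T⁻¹ y) = y := T.apply_symm_apply
      have e1 := h (T⁻¹ w)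
      rw [hi] at e1
      rw [hT (_ • _), gal_smul, mulVec_smul, ← hT, hi, e1, smul_smul]
      have : s (s⁻¹ c⁻¹) = c⁻¹ := s.apply_symm_apply _
      rw [this, inv_mul_cancel₀ hc, one_smul]

variable {f : Fin n → MvPolynomial (Fin n) Om} {A : Subgroup Ga}

instance : DistribMulAction (EE f A) (Fin n → Om) where
  smul e w := e.1.1 w
  one_smul _ := rfl
  mul_smul _ _ _ := rfl
  smul_zero e := by
    obtain ⟨φ, -, h⟩ := e.2.2.1
    show e.1.1 0 = 0
    rw [h, smul_zero, mulVec_zero]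
  smul_add e x y := by
    obtain ⟨φ, -, h⟩ := e.2.2.1
    show e.1.1 (x + y) = e.1.1 x + e.1.1 y
    rw [h, h, h, smul_add, mulVec_add]

theorem smul_def (e : EE f A) (w : Fin n → Om) : e • w = e.1.1 w := rfl

variable (f A) in
/-- the projection to the Galois group -/
noncomputable def pr : EE f A →* Ga := (MonoidHom.snd _ _).comp (EE f A).subtype

theorem pr_apply (e : EE f A) : pr f A e = e.1.2 := rfl

theorem semi (e : EE f A) (a : Om) (w : Fin n → Om) : e • a • w = pr f A e a • e • w := by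
  obtain ⟨φ, -, h⟩ := e.2.2.1
  rw [smul_def, smul_def, h, h, gal_smul, mulVec_smul, pr_apply]

theorem range_pr : (pr f A).range = (pr f ⊤).range ⊓ A := by
  ext s
  constructor
  · rintro ⟨e, rfl⟩
    exact ⟨⟨⟨e.1, trivial, e.2.2⟩, rfl⟩, e.2.1⟩
  · rintro ⟨⟨e, rfl⟩, h⟩
    exact ⟨⟨e.1, h, e.2.2⟩, rfl⟩

variable (f A) in
/-- the elements with trivial linear part -/
def E0 : Subgroup (EE f A) where
  carrier := {e | ∀ w : Fin n → Om, e • w = pr f A e • w}
  one_mem' := fun w => by simp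
  mul_mem' := fun {a b} ha hb w => by rw [mul_smul, hb, ha, map_mul, mul_smul]
  inv_mem' := fun {a} ha w => by rw [inv_smul_eq_iff, ha, map_inv, smul_inv_smul]

theorem open_fix {ι : Type} [Finite ι] (v : ι → Om) :
    IsOpen ((⨅ i, MulAction.stabilizer Ga (v i) : Subgroup Ga) : Set Ga) := by
  have := galOm
  rw [Subgroup.coe_iInf]
  exact isOpen_iInter_of_finite fun i => stabilizer_isOpen_of_isIntegral (v i)

theorem open_E0 (hA : IsOpen (A : Set Ga)) :
    IsOpen (((E0 f A).map (pr f A) : Subgroup Ga) : Set Ga) := by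
  refine Subgroup.isOpen_mono (H₁ := A ⊓ ⨅ p : Σ i, (f i).support,
    MulAction.stabilizer Ga (coeff p.2.1 (f p.1))) ?_ (hA.inter (open_fix _))
  rintro s ⟨hs, hs'⟩
  have hm : ∀ i, map (s : Om →+* Om) (f i) = f i := fun i => by
    ext m
    rw [coeff_map]
    by_cases hm : m ∈ (f i).support
    · exact Subgroup.mem_iInf.1 hs' ⟨i, m, hm⟩
    · rw [notMem_support_iff.1 hm, map_zero]
  refine ⟨⟨(MulAction.toPerm s, s), hs, ⟨1, det_one, fun w => by simp⟩, 1, one_ne_zero,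
    fun w => ?_⟩, fun w => rfl, rfl⟩
  ext i
  show eval (s • w) (f i) = 1 * s (eval w (f i))
  rw [one_mul, ← gal_eval, hm]

theorem opn_stab (w : Fin n → Om) :
    Opn (pr f A) (E0 f A) (MulAction.stabilizer (EE f A) w) :=
  ⟨_, open_fix w, fun e he h => (he w).trans (funext fun i => Subgroup.mem_iInf.1 h i)⟩

theorem faithful (g : EE f A) (h : pr f A g = 1) (h' : ∀ w : Fin n → Om, g • w = w) : g = 1 :=
  Subtype.ext (Prod.ext (Equiv.ext h') h)

theorem finite_ker (hF : RowFIN) {d : ℕ} (hd : 2 ≤ d) (hf : ∀ i, (f i).IsHomogeneous d)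
    (h0 : ∀ x : Fin n → Om, (∀ i, eval x (f i) = 0) → x = 0) : Finite (pr f A).ker := by
  refine Set.Finite.of_finite_image (s := ((pr f A).ker : Set (EE f A)))
    (f := fun e => fun w : Fin n → Om => e • w)
    (((hF n d f hd hf h0).image fun φ => φ.mulVec).subset ?_) ?_
  · rintro _ ⟨e, he, rfl⟩
    obtain ⟨-, ⟨φ, hφ, hT⟩, c, hc, h⟩ := e.2
    have h1 : e.1.2 = 1 := he
    simp only [h1, one_smul] at hT
    refine ⟨φ, ⟨hφ, c, hc, fun x => ?_⟩, funext fun w => (hT w).symm⟩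
    have := h x
    rwa [hT, hT] at this
  · intro e he e' he' h
    exact Subtype.ext (Prod.ext (Equiv.ext (congrFun h)) (Eq.trans he (Eq.symm he')))

end Gen

section Conj

variable {N : ℕ} {f : Fin (N + 1) → MvPolynomial (Fin (N + 1)) Om}

theorem ev_conj (φ : GL (Fin (N + 1)) Om) (x : Fin (N + 1) → Om) :
    ev (H58.conj φ f) x = φ⁻¹.val *ᵥ ev f (φ.val *ᵥ x) := by
  ext i
  simp only [ev, H58.conj, map_sum, map_mul, eval_C, mulVec, dotProduct]
  refine Finset.sum_congr rfl fun j _ => ?_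
  congr 1
  rw [aeval_eq_bind₁, ← coe_aeval_eq_eval, ← coe_aeval_eq_eval]
  erw [aeval_bind₁]
  simp
  rfl

theorem poly_eq (s : Ga) {g g' : Fin (N + 1) → MvPolynomial (Fin (N + 1)) Om} {c : Om} :
    (∀ i, map (s : Om →+* Om) (g i) = C c * g' i) ↔ ∀ x, s • ev g x = c • ev g' (s • x) := by
  constructor
  · intro h x
    ext i
    show s (eval x (g i)) = c * eval (s • x) (g' i)
    rw [← gal_eval, h, map_mul, eval_C]
  · intro h i
    refine MvPolynomial.funext fun y => ?_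
    have := congrFun (h (s⁻¹ • y)) i
    rw [← smul_inv_smul s y, gal_eval, map_mul, eval_C]
    exact this

theorem mem_range_iff {d : ℕ} (hf : ∀ i, (f i).IsHomogeneous d) (s : Ga) :
    s ∈ (pr f ⊤).range ↔ ∃ (φ : GL (Fin (N + 1)) Om) (c : Om), c ≠ 0 ∧
      ∀ i, map (s : Om →+* Om) (f i) = C c * H58.conj φ f i := by
  constructor
  · rintro ⟨⟨⟨T, s⟩, -, ⟨φ, hφ, hT⟩, c, hc, h⟩, rfl⟩
    simp only at hT h
    have hu : IsUnit φ.det := hφ ▸ isUnit_one
    refine ⟨nonsingInvUnit φ hu, c⁻¹, inv_ne_zero hc, (poly_eq s).2 fun x => ?_⟩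
    rw [ev_conj]
    show s • _ = c⁻¹ • φ⁻¹ *ᵥ ev f (φ *ᵥ _)
    rw [← hT, h, hT, mulVec_smul, mulVec_mulVec, nonsing_inv_mul _ hu, one_mulVec, smul_smul,
      inv_mul_cancel₀ hc, one_smul]
  · rintro ⟨φ, c, hc, h⟩
    rw [poly_eq] at h
    have hd : φ.val.det ≠ 0 := φ.det_ne_zero
    obtain ⟨a, ha⟩ := IsAlgClosed.exists_pow_nat_eq φ.val.det⁻¹ N.succ_pos
    have ha0 : a ≠ 0 := by
      rintro rfl
      exact inv_ne_zero hd (by rw [← ha, zero_pow N.succ_ne_zero])
    have h1 : (a • φ.val).det = 1 := by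
      rw [det_smul, Fintype.card_fin, ha, inv_mul_cancel₀ hd]
    have hu : IsUnit (a • φ.val).det := h1 ▸ isUnit_one
    let T : Equiv.Perm (Fin (N + 1) → Om) :=
      { toFun := fun w => (a • φ.val) *ᵥ (s • w)
        invFun := fun w => s⁻¹ • ((a • φ.val)⁻¹ *ᵥ w)
        left_inv := fun w => by
          simp only [mulVec_mulVec, nonsing_inv_mul _ hu, one_mulVec, inv_smul_smul]
        right_inv := fun w => by
          simp only [mulVec_mulVec, mul_nonsing_inv _ hu, one_mulVec, smul_inv_smul] }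
    refine ⟨⟨(T, s), trivial, ⟨_, h1, fun w => rfl⟩, a ^ d * c⁻¹ * a⁻¹, by simp [ha0, hc],
      fun w => ?_⟩, rfl⟩
    show ev f ((a • φ.val) *ᵥ (s • w)) = _ • (a • φ.val) *ᵥ (s • ev f w)
    rw [h, ev_conj, smul_mulVec, smul_mulVec, ev_smul hf, mulVec_smul φ.val c, mulVec_mulVec,
      Units.mul_inv, one_mulVec, smul_smul, smul_smul]
    congr 1
    field_simp

/-- descent of the coefficients -/
theorem descent {A : Subgroup Ga} (U : Subgroup (EE f A))
    (h0 : ∀ x : Fin (N + 1) → Om, (∀ i, eval x (f i) = 0) → x = 0)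
    (hU : Submodule.span Om {w : Fin (N + 1) → Om | ∀ e ∈ U, e • w = w} = ⊤) :
    ∃ (φ : GL (Fin (N + 1)) Om) (c : Om), c ≠ 0 ∧ ∀ i m, ∀ e ∈ U,
      pr f A e (coeff m (C c * H58.conj φ f i)) = coeff m (C c * H58.conj φ f i) := by
  obtain ⟨v, hv, hli⟩ : ∃ v : Fin (N + 1) → Fin (N + 1) → Om, (∀ j, ∀ e ∈ U, e • v j = v j) ∧
      LinearIndependent Om v := by
    obtain ⟨v, hv, -, hli⟩ := Submodule.exists_fun_fin_finrank_span_eq Om
      {w : Fin (N + 1) → Om | ∀ e ∈ U, e • w = w}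
    have e : N + 1 = Module.finrank Om
        (Submodule.span Om {w : Fin (N + 1) → Om | ∀ e ∈ U, e • w = w}) := by
      rw [hU, finrank_top, Module.finrank_fin_fun]
    exact ⟨v ∘ Fin.cast e, fun j => hv _, hli.comp _ (Fin.cast_injective e)⟩
  obtain ⟨ψ, hψ⟩ : IsUnit (Matrix.of v)ᵀ := linearIndependent_cols_iff_isUnit.1 hli
  have hfix : ∀ e ∈ U, ∀ x, e • (ψ.val *ᵥ x) = ψ.val *ᵥ (pr f A e • x) := fun e he x => by
    have h1 : ∀ y, ψ.val *ᵥ y = ∑ j, y j • v j := fun y => by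
      ext i
      simp [hψ, mulVec, dotProduct, mul_comm]
    rw [h1, h1, Finset.smul_sum]
    exact Finset.sum_congr rfl fun j _ => by rw [semi, hv j e he]; rfl
  have hne : ∃ i m, coeff m (H58.conj ψ f i) ≠ 0 := by
    by_contra! hz
    have h1 : ev (H58.conj ψ f) (fun _ => 1) = 0 := by
      ext i
      rw [ev, show H58.conj ψ f i = 0 from MvPolynomial.ext _ _ (hz i), map_zero]
      rfl
    rw [ev_conj] at h1
    have h2 := congrArg (ψ.val *ᵥ ·) h1
    simp only [mulVec_mulVec, Units.mul_inv, one_mulVec, mulVec_zero] at h2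
    have h3 := congrArg (ψ⁻¹.val *ᵥ ·) (h0 _ (congrFun h2))
    simp only [mulVec_mulVec, Units.inv_mul, one_mulVec, mulVec_zero] at h3
    exact one_ne_zero (congrFun h3 0)
  obtain ⟨i0, m0, h00⟩ := hne
  refine ⟨ψ, (coeff m0 (H58.conj ψ f i0))⁻¹, inv_ne_zero h00, fun i m e he => ?_⟩
  obtain ⟨c, hc, h⟩ := e.2.2.2
  have key : ∀ i, map (pr f A e : Om →+* Om) (H58.conj ψ f i) = C c⁻¹ * H58.conj ψ f i := by
    refine (poly_eq _).2 fun x => ?_
    rw [ev_conj ψ (_ • x), ← hfix e he, smul_def, h, ← smul_def, mulVec_smul, smul_smul,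
      inv_mul_cancel₀ hc, one_smul]
    have h1 := hfix e he (ev (H58.conj ψ f) x)
    rw [ev_conj, mulVec_mulVec, Units.mul_inv, one_mulVec] at h1
    rw [h1, mulVec_mulVec, Units.inv_mul, one_mulVec, ev_conj]
  have k2 : ∀ i m, pr f A e (coeff m (H58.conj ψ f i)) = c⁻¹ * coeff m (H58.conj ψ f i) :=
    fun i m => by
    have := congrArg (coeff m) (key i)
    rwa [coeff_map, coeff_C_mul] at this
  rw [coeff_C_mul, map_mul, map_inv₀, k2, k2]
  field_simp

end Conj

theorem index_i {i : Om} (hi : i ^ 2 = -1) (G : Subgroup Ga) :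
    (G ⊓ MulAction.stabilizer Ga i).relIndex G ≤ 2 := by
  have hs : MulAction.orbit Ga i ⊆ {i, -i} := by
    rintro _ ⟨s, rfl⟩
    have : s i ^ 2 = i ^ 2 := by rw [← map_pow, hi, map_neg, map_one]
    exact sq_eq_sq_iff_eq_or_eq_neg.1 this
  have hf : ({i, -i} : Set Om).Finite := Set.toFinite _
  have h1 : (MulAction.stabilizer Ga i).index ≠ 0 := by
    rw [MulAction.index_stabilizer]
    exact ((Set.ncard_pos (hf.subset hs)).2 ⟨i, MulAction.mem_orbit_self i⟩).ne'
  rw [Subgroup.inf_relIndex_left]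
  refine (Subgroup.relIndex_le_of_le_right le_top (by rwa [Subgroup.relIndex_top_right])).trans ?_
  rw [Subgroup.relIndex_top_right, MulAction.index_stabilizer]
  exact (Set.ncard_le_ncard hs hf).trans ((Set.ncard_insert_le _ _).trans (by simp))

theorem field_part {H G : Subgroup Ga} (hH : IsOpen (H : Set Ga)) (hle : H ≤ G) :
    FiniteDimensional ℚ (IntermediateField.fixedField H) ∧
      IntermediateField.relfinrank (IntermediateField.fixedField G)
        (IntermediateField.fixedField H) = H.relIndex G := by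
  have := galOm
  have hG := Subgroup.isOpen_mono hle hH
  have e : ∀ S : Subgroup Ga, IsOpen (S : Set Ga) →
      (IntermediateField.fixedField S).fixingSubgroup = S := fun S hS =>
    InfiniteGalois.fixingSubgroup_fixedField ⟨S, S.isClosed_of_isOpen hS⟩
  have fd : ∀ S : Subgroup Ga, IsOpen (S : Set Ga) →
      FiniteDimensional ℚ (IntermediateField.fixedField S) := fun S hS =>
    (InfiniteGalois.isOpen_iff_finite _).1 (by rw [e S hS]; exact hS)
  refine ⟨fd H hH, ?_⟩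
  have := fd G hG
  have h1 := IntermediateField.finrank_bot_mul_relfinrank (IntermediateField.fixedField_antitone hle)
  have h2 : 0 < Module.finrank ℚ (IntermediateField.fixedField G) := Module.finrank_pos
  rw [IntermediateField.finrank_eq_fixingSubgroup_index, e G hG] at h1 h2
  rw [IntermediateField.finrank_eq_fixingSubgroup_index, e H hH, ← Subgroup.relIndex_mul_index hle,
    mul_comm] at h1
  exact Nat.eq_of_mul_eq_mul_right h2 h1

theorem rowTOP : RowDS → RowFIN → RowB → RowG → RowTOP := by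
  rintro hDS hF hB ⟨c, hG⟩
  refine ⟨c, fun N d hN hd f hf h0 K hK => ?_⟩
  have := galOm
  obtain ⟨i, hi⟩ := IsAlgClosed.exists_pow_nat_eq (-1 : Om) two_pos
  have hA := stabilizer_isOpen_of_isIntegral (K := ℚ) i
  have hE := open_E0 (f := f) hA
  obtain ⟨U, T, hU, hk, hT, hc, hb⟩ := hB _ (Fin (N + 1) → Om) (pr f _) (E0 f _) semi hE opn_stab
    ⟨i, hi, fun e => e.2.1⟩ (finite_ker hF hd hf h0) faithful
  rw [Module.finrank_fin_fun] at hc hb
  obtain ⟨φ, a, ha, hφ⟩ := descent U h0 (hDS _ _ _ _ U semi hE opn_stab hU fun g hg h w => by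
    rw [hk g hg h, one_smul])
  obtain ⟨H, hH, hHU⟩ := hU
  have ho : IsOpen ((U.map (pr f _) : Subgroup Ga) : Set Ga) := by
    refine Subgroup.isOpen_mono (H₁ := (E0 f _).map (pr f _) ⊓ H) ?_ (hE.inter hH)
    rintro _ ⟨⟨e, he, rfl⟩, h⟩
    exact ⟨e, hHU e he h, rfl⟩
  have l1 := U.map_le_range (pr f _)
  have l2 : (pr f (MulAction.stabilizer Ga i)).range ≤ (pr f ⊤).range := range_pr.le.trans inf_le_left
  obtain ⟨h1, h2⟩ := field_part ho (l1.trans l2)
  obtain rfl : K = IntermediateField.fixedField (pr f ⊤).range := by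
    ext x
    rw [hK, IntermediateField.mem_fixedField_iff]
    simp only [mem_range_iff hf]
  refine ⟨_, h1, IntermediateField.fixedField_antitone (l1.trans l2), ⟨φ, a, ha, fun j m => ?_⟩,
    le_trans ?_ (hG N T hN hT hc)⟩
  · rw [IntermediateField.mem_fixedField_iff]
    rintro _ ⟨e, he, rfl⟩
    exact hφ j m e he
  · rw [h2, ← Subgroup.relIndex_mul_relIndex _ _ _ l1 l2, mul_comm, Nat.cast_le]
    exact Nat.mul_le_mul (range_pr.symm ▸ index_i hi _) hb

end Pool.Agent.MP_db5b97_nt.H61
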